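import Pool.Agent.Halving.Reduce

/-!
# For every `t` the halving conjecture is a finite problem

For every `t` the halving conjecture for all `s ≤ t`, all `k` and all `v` is equivalent to its
finitely many cases with `s ≤ t` and `v < 17 (s + 1)`.

Proof. The recursion for signings (products along cuts of a linearly ordered point set) reduces
everything to the root cases `v = 2 ^ n + s`, `2 ^ (n - 1) ≤ k ≤ 2 ^ (n - 1) + s` if `s < 2 ^ (n - 1)`;
the root cases with `2 ^ (n - 1) ≥ 8 (s + 1)` are in the linear range (see `HalvingLinearRange`).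
-/

set_option autoImplicit false

namespace Pool.Agent.Results.MP_7acab9_co.HalvingFiniteReduction

/-- A large set `LS[2](t, k, v)` exists: the `k`-subsets of a `v`-set can be partitioned into two
`t`-designs with the same index. -/
def LargeSet (t k v : ℕ) : Prop :=
  ∃ B₁ B₂ : Finset (Finset (Fin v)),
    Disjoint B₁ B₂ ∧
    B₁ ∪ B₂ = (Finset.univ : Finset (Fin v)).powersetCard k ∧
    ∃ lam : ℕ, ∀ T : Finset (Fin v), T.card = t →
      (B₁.filter (fun b => T ⊆ b)).card = lam ∧
      (B₂.filter (fun b => T ⊆ b)).card = lam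

/-- The necessary divisibility conditions. -/
def Feasible (t k v : ℕ) : Prop := ∀ i : ℕ, i ≤ t → 2 ∣ Nat.choose (v - i) (k - i)

theorem result : ∀ t : ℕ,
    ((∀ s k v : ℕ, s ≤ t → s ≤ k → k ≤ v → v < 17 * (s + 1) →
        (LargeSet s k v ↔ Feasible s k v)) ↔
      ∀ s k v : ℕ, s ≤ t → s ≤ k → k ≤ v → (LargeSet s k v ↔ Feasible s k v)) := by
  intro t
  constructor
  · intro H s k v hs hsk hkv
    unfold LargeSet Feasible
    rw [Halving.large_set_iff' hsk hkv]
    refine ⟨Halving.feasible_of_bal' hsk hkv, fun h => ?_⟩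
    refine Halving.bal_of_small (t := t) ?_ hs hsk hkv h
    intro s' hs' k' v' h1 h2 h3 h4
    have h5 := (H s' k' v' hs' h1 h2 h3).2 h4
    unfold LargeSet at h5
    rwa [Halving.large_set_iff' h1 h2] at h5
  · intro H s k v hs hsk hkv _
    exact H s k v hs hsk hkv

end Pool.Agent.Results.MP_7acab9_co.HalvingFiniteReduction
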