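import Pool.Agent.Halving.Design
import Pool.Agent.Halving.Sparse

/-!
# The halving conjecture for `k ≥ 2 t + 2` and large `v`

For all `k ≥ 2 t + 2` and all `v` with `32 ^ k * k ^ (k - 2 t - 1) ≤ (v - 2 k) ^ (k - 2 t - 1)`
a large set `LS[2](t, k, v)` exists if and only if `(t, k, v)` is feasible. For `k = 2 t + 2` the
condition is `v ≥ 2 k + k * 32 ^ k`, for `k ≥ 4 t + 2` it follows from `v ≥ 1026 k`.

The proof is that of the linear range (see `HalvingLinearRange`), with blocks of size one.
-/

set_option autoImplicit false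

namespace Pool.Agent.Results.MP_7acab9_co.HalvingLargeV

/-- A large set `LS[2](t, k, v)` exists: the `k`-subsets of a `v`-set can be partitioned into two
`t`-designs with the same index. -/
def LargeSet (t k v : ℕ) : Prop :=
  ∃ B₁ B₂ : Finset (Finset (Fin v)),
    Disjoint B₁ B₂ ∧
    B₁ ∪ B₂ = (Finset.univ : Finset (Fin v)).powersetCard k ∧
    ∃ lam : ℕ, ∀ T : Finset (Fin v), T.card = t →
      (B₁.filter (fun b => T ⊆ b)).card = lam ∧
      (B₂.filter (fun b => T ⊆ b)).card = lam

/-- The necessary divisibility conditions. -/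
def Feasible (t k v : ℕ) : Prop := ∀ i : ℕ, i ≤ t → 2 ∣ Nat.choose (v - i) (k - i)

theorem result : ∀ t k v : ℕ, 2 * t + 2 ≤ k →
    32 ^ k * k ^ (k - 2 * t - 1) ≤ (v - 2 * k) ^ (k - 2 * t - 1) →
    (LargeSet t k v ↔ Feasible t k v) := by
  intro t k v h1 h2
  have hkv : k ≤ v := by
    by_contra hc
    have h3 : v - 2 * k = 0 := by omega
    rw [h3, zero_pow (by omega)] at h2
    have h4 : 0 < 32 ^ k * k ^ (k - 2 * t - 1) := by
      have : 0 < k := by omega
      positivity
    omega
  unfold LargeSet Feasible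
  rw [Halving.large_set_iff' (by omega) hkv]
  exact ⟨Halving.feasible_of_bal' (by omega) hkv, fun h => Halving.bal_sparse h h1 h2⟩

end Pool.Agent.Results.MP_7acab9_co.HalvingLargeV
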