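import Pool.Agent.Halving.Design
import Pool.Agent.Halving.Linear

/-!
# The halving conjecture in the linear range

For all `t`, `k`, `v` with `8 (t + 1) ≤ k ≤ v - 8 (t + 1)` a large set `LS[2](t, k, v)` exists
if and only if `(t, k, v)` is feasible.

Proof. The number of signings of the `k`-subsets all of whose sums over the blocks through a
`t`-set vanish is, up to a factor, a sum over the characters of a finite abelian group of products of
cosines `cos (π G(S))`, where `G` runs over real polynomials of degree at most `t` on the
`k`-subsets. If the quadratic energy of the distances of `G(S)` to the integers is large the product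
is negligible. Otherwise the value of `G` at any `S` is an integer combination, with coefficients
`± C(m - 1, a)`, of its values at sets which are obtained from `S` by exchanging `m > a` of
`a + 1 + t` disjoint blocks; averaging over the blocks shows that `G` is close to an integer
everywhere, hence to an integral polynomial of degree at most `t`, and feasibility makes the product
nonnegative.
-/

set_option autoImplicit false

namespace Pool.Agent.Results.MP_7acab9_co.HalvingLinearRange

/-- A large set `LS[2](t, k, v)` exists: the `k`-subsets of a `v`-set can be partitioned into two
`t`-designs with the same index. -/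
def LargeSet (t k v : ℕ) : Prop :=
  ∃ B₁ B₂ : Finset (Finset (Fin v)),
    Disjoint B₁ B₂ ∧
    B₁ ∪ B₂ = (Finset.univ : Finset (Fin v)).powersetCard k ∧
    ∃ lam : ℕ, ∀ T : Finset (Fin v), T.card = t →
      (B₁.filter (fun b => T ⊆ b)).card = lam ∧
      (B₂.filter (fun b => T ⊆ b)).card = lam

/-- The necessary divisibility conditions. -/
def Feasible (t k v : ℕ) : Prop := ∀ i : ℕ, i ≤ t → 2 ∣ Nat.choose (v - i) (k - i)

theorem result : ∀ t k v : ℕ, 8 * (t + 1) ≤ k → k + 8 * (t + 1) ≤ v →
    (LargeSet t k v ↔ Feasible t k v) := by
  intro t k v h1 h2
  unfold LargeSet Feasible
  rw [Halving.large_set_iff' (by omega) (by omega)]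
  exact ⟨Halving.feasible_of_bal' (by omega) (by omega), fun h => Halving.bal_linear h h1 h2⟩

end Pool.Agent.Results.MP_7acab9_co.HalvingLinearRange
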