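import Pool.Agent.Halving.Four4

/-!
# The halving conjecture holds for all `t ≤ 4`

For `t ≤ 4` and all `t ≤ k ≤ v`, a large set `LS[2](t, k, v)` exists if and only if
`2` divides `C(v - i, k - i)` for all `0 ≤ i ≤ t`.

Proof. (1) Recursion: signings of the `k`-subsets of strength `r` (all sums over the blocks
containing a set with fewer than `r` points vanish) multiply along cuts of a linearly ordered
point set; this reduces everything to root cases `v = 2 ^ n + t`, `2 ^ (n-1) ≤ k ≤ 2 ^ (n-1) + t`
and the cases with `n ≤ 3`. (2) Roots with `2 ^ (n-1) ≥ 32`: the number of signings is a sum of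
products of cosines over the characters of a finite abelian group; each product is either tiny, or
all its phases decode to an integer polynomial of degree at most `t`, and then feasibility makes the
product nonnegative. (3) The roots with `v = 13, 20, 36` are given by explicit signings which
are checked by the kernel; the middle block size and `v = 14` follow by extension
(for odd strength of the extension, sets are paired with their complements).
-/

set_option autoImplicit false

namespace Pool.Agent.Results.MP_7acab9_co.HalvingUpToFour

theorem result : ∀ t k v : ℕ, t ≤ 4 → t ≤ k → k ≤ v →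
    ((∃ B₁ B₂ : Finset (Finset (Fin v)),
        Disjoint B₁ B₂ ∧
        B₁ ∪ B₂ = (Finset.univ : Finset (Fin v)).powersetCard k ∧
        ∃ lam : ℕ, ∀ T : Finset (Fin v), T.card = t →
          (B₁.filter (fun b => T ⊆ b)).card = lam ∧
          (B₂.filter (fun b => T ⊆ b)).card = lam) ↔
      ∀ i : ℕ, i ≤ t → 2 ∣ Nat.choose (v - i) (k - i)) := by
  intro t k v ht htk hkv
  rw [Halving.large_set_iff' htk hkv]
  constructor
  · intro h
    exact Halving.feasible_of_bal' htk hkv h
  · intro h
    obtain ⟨n, h1, h2⟩ := Halving.window_of_feasible t v k htk hkv h
    exact Halving.bal_of_window (fun s hs => Halving.roots_four s (hs.trans ht)) h1 h2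

end Pool.Agent.Results.MP_7acab9_co.HalvingUpToFour
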